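import Pool.Agent.Helper83.TR.SpinMain
import Pool.Agent.Helper4.UN.Wa
import Pool.Agent.Helper2.AV.TDefs

/-!
Sharpness of the theorem for all types: the spin representations (block SHS).
-/

set_option linter.unusedSimpArgs false
set_option linter.unusedSectionVars false

open Module MTPairs MTP TRSpin

namespace AV.SHS

variable {K : Type*} [Field K]

section bl
variable {m : Type*} [Fintype m] [DecidableEq m]

/-- The diagonal embedding. -/
def bl (K : Type*) [Field K] (m : Type*) [Fintype m] [DecidableEq m] :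
    Matrix m m K →ₐ[K] Matrix (m ⊕ m) (m ⊕ m) K :=
  AlgHom.ofLinearMap
    { toFun := fun A => Matrix.fromBlocks A 0 0 A
      map_add' := fun A B => by rw [Matrix.fromBlocks_add]; simp
      map_smul' := fun c A => by rw [RingHom.id_apply, Matrix.fromBlocks_smul]; simp }
    Matrix.fromBlocks_one
    (fun A B => by
      change Matrix.fromBlocks (A * B) 0 0 (A * B) =
        Matrix.fromBlocks A 0 0 A * Matrix.fromBlocks B 0 0 B
      rw [Matrix.fromBlocks_multiply]; simp)

lemma bl_apply (A : Matrix m m K) : bl K m A = Matrix.fromBlocks A 0 0 A := rfl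

lemma bl_inj {A B : Matrix m m K} (h : bl K m A = bl K m B) : A = B := by
  rw [bl_apply, bl_apply, Matrix.fromBlocks_inj] at h
  exact h.1

/-- The first coordinate. -/
def p1 (K : Type*) [Field K] (m : Type*) : (m ⊕ m → K) →ₗ[K] (m → K) :=
  LinearMap.funLeft K K Sum.inl

/-- The second coordinate. -/
def p2 (K : Type*) [Field K] (m : Type*) : (m ⊕ m → K) →ₗ[K] (m → K) :=
  LinearMap.funLeft K K Sum.inr

lemma bl_mulVec (A : Matrix m m K) (v : m ⊕ m → K) : (bl K m A).mulVec v =
    Sum.elim (A.mulVec (p1 K m v)) (A.mulVec (p2 K m v)) := by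
  rw [bl_apply, Matrix.fromBlocks_mulVec]
  simp only [Matrix.zero_mulVec, add_zero, zero_add]
  rfl

lemma bl_p1 (A : Matrix m m K) (v : m ⊕ m → K) :
    p1 K m ((bl K m A).mulVec v) = A.mulVec (p1 K m v) := by
  rw [bl_mulVec]; rfl

lemma bl_p2 (A : Matrix m m K) (v : m ⊕ m → K) :
    p2 K m ((bl K m A).mulVec v) = A.mulVec (p2 K m v) := by
  rw [bl_mulVec]; rfl

/-- The skew form. -/
def J2 (J : Matrix m m K) : Matrix (m ⊕ m) (m ⊕ m) K := Matrix.fromBlocks 0 J (-J.transpose) 0

lemma J2_t (J : Matrix m m K) : (J2 J).transpose = -J2 J := by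
  unfold J2
  rw [Matrix.fromBlocks_transpose, Matrix.fromBlocks_neg]
  simp

lemma J2_det {J : Matrix m m K} (h : J.det ≠ 0) : (J2 J).det ≠ 0 := by
  have hu : IsUnit J.det := isUnit_iff_ne_zero.mpr h
  have h1 : J * J⁻¹ = 1 := Matrix.mul_nonsing_inv _ hu
  have h2 : J⁻¹ * J = 1 := Matrix.nonsing_inv_mul _ hu
  have e : J2 J * Matrix.fromBlocks 0 (-(J⁻¹).transpose) J⁻¹ 0 = 1 := by
    unfold J2
    rw [Matrix.fromBlocks_multiply, ← Matrix.fromBlocks_one]
    congr 1
    · rw [h1]; simp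
    · simp
    · simp
    · rw [neg_mul_neg, ← Matrix.transpose_mul, h2]; simp
  intro h0
  have := congrArg Matrix.det e
  rw [Matrix.det_mul, h0, zero_mul, Matrix.det_one] at this
  exact zero_ne_one this

lemma J2_vec {J v : Matrix m m K} {e : K} (he : e * e = 1) (h : v.transpose * J = e • (J * v)) :
    (bl K m v).transpose * J2 J = e • (J2 J * bl K m v) := by
  have h' : v.transpose * J.transpose = e • (J.transpose * v) := by
    have h2 := congrArg Matrix.transpose h
    rw [Matrix.transpose_mul, Matrix.transpose_transpose, Matrix.transpose_smul,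
      Matrix.transpose_mul] at h2
    rw [h2, smul_smul, he, one_smul]
  rw [bl_apply, J2, Matrix.fromBlocks_transpose, Matrix.fromBlocks_multiply,
    Matrix.fromBlocks_multiply, Matrix.fromBlocks_smul]
  congr 1
  · simp
  · rw [h]; simp
  · rw [mul_neg, h']; simp
  · simp

/-- Doubling a space of Clifford vectors. -/
def V2 (V : Submodule K (Matrix m m K)) : Submodule K (Matrix (m ⊕ m) (m ⊕ m) K) :=
  V.map (bl K m).toLinearMap

lemma mem_V2 {V : Submodule K (Matrix m m K)} {v : Matrix m m K} (h : v ∈ V) :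
    bl K m v ∈ V2 V := ⟨v, h, rfl⟩

lemma cliff2 {V : Submodule K (Matrix m m K)} (h : IsCliff V) : IsCliff (V2 V) := by
  rintro _ ⟨v, hv, rfl⟩ _ ⟨w, hw, rfl⟩
  obtain ⟨c, hc⟩ := h v hv w hw
  refine ⟨c, ?_⟩
  change bl K m v * bl K m w + bl K m w * bl K m v = c • 1
  rw [← map_mul, ← map_mul, ← map_add, hc, map_smul, map_one]

/-- The data of an irreducible Clifford space. -/
structure Dat (V : Submodule K (Matrix m m K)) (x y : Matrix m m K) : Prop where
  cl : IsCliff V
  hx : x ∈ V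
  hy : y ∈ V
  x2 : x * x = 0
  y2 : y * y = 0
  xy : x * y + y * x = 1
  irr : ∀ U : Submodule K (m → K), (∀ P ∈ OH V x y, ∀ v ∈ U, P.mulVec v ∈ U) → U = ⊥ ∨ U = ⊤

variable {V : Submodule K (Matrix m m K)} {x y : Matrix m m K}

lemma EN_map {h : Matrix.GeneralLinearGroup m K} (hh : h ∈ EN V x y) :
    Units.map ((bl K m : Matrix m m K →ₐ[K] Matrix (m ⊕ m) (m ⊕ m) K) :
      Matrix m m K →* Matrix (m ⊕ m) (m ⊕ m) K) h ∈ EN (V2 V) (bl K m x) (bl K m y) := by
  induction hh using Subgroup.closure_induction with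
  | mem h hh =>
    obtain ⟨w, hw, hwx, hwy, hu⟩ := hh
    refine Subgroup.subset_closure ⟨bl K m w, mem_V2 hw, ?_, ?_, ?_⟩
    · rw [← map_mul, ← map_mul, ← map_add, hwx, map_zero]
    · rw [← map_mul, ← map_mul, ← map_add, hwy, map_zero]
    · rcases hu with hu | hu
      · left
        change bl K m h.val = _
        rw [hu, map_add, map_one, map_mul]
      · right
        change bl K m h.val = _
        rw [hu, map_add, map_one, map_mul]
  | one => rw [map_one]; exact Subgroup.one_mem _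
  | mul a b _ _ ha hb => rw [map_mul]; exact Subgroup.mul_mem _ ha hb
  | inv a _ ha => rw [map_inv]; exact Subgroup.inv_mem _ ha

lemma OH_map {P : Matrix m m K} (hP : P ∈ OH V x y) :
    bl K m P ∈ OH (V2 V) (bl K m x) (bl K m y) := by
  obtain ⟨h, hh, rfl⟩ := hP
  refine ⟨_, EN_map hh, ?_⟩
  rw [map_mul, map_mul, map_mul]
  rfl

/-- The group. -/
noncomputable abbrev GG (V : Submodule K (Matrix m m K)) (x y : Matrix m m K) :
    Subgroup (Matrix.GeneralLinearGroup (m ⊕ m) K) :=
  GenG (OH (V2 V) (bl K m x) (bl K m y))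

variable [CharZero K]

lemma Dat.hyp (D : Dat V x y) {Q : Matrix (m ⊕ m) (m ⊕ m) K}
    (hQ : Q ∈ OH (V2 V) (bl K m x) (bl K m y)) : Q ∈ HypSet (V2 V) :=
  OH_hyp (cliff2 D.cl) (mem_V2 D.hx) (mem_V2 D.hy) (by rw [← map_mul, D.x2, map_zero])
    (by rw [← map_mul, D.y2, map_zero])
    (by rw [← map_mul, ← map_mul, ← map_add, D.xy, map_one]) hQ

lemma Dat.idem (D : Dat V x y) {Q : Matrix (m ⊕ m) (m ⊕ m) K}
    (hQ : Q ∈ OH (V2 V) (bl K m x) (bl K m y)) : Q * Q = Q := by
  obtain ⟨a, ha, b, hb, k1, k2, k3, rfl⟩ := D.hyp hQ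
  exact hyp_idem k1 k3

lemma Dat.ex (D : Dat V x y) {Q : Matrix (m ⊕ m) (m ⊕ m) K}
    (hQ : Q ∈ OH (V2 V) (bl K m x) (bl K m y)) : ∃ A, Q = bl K m A := by
  obtain ⟨a, ⟨a', ha, rfl⟩, b, ⟨b', hb, rfl⟩, k1, k2, k3, rfl⟩ := D.hyp hQ
  refine ⟨a' * b', ?_⟩
  change bl K m a' * bl K m b' = _
  rw [map_mul]

lemma Dat.EN_le (D : Dat V x y) : EN (V2 V) (bl K m x) (bl K m y) ≤ GG V x y :=
  EN_le_gen (by rw [← map_mul, D.x2, map_zero]) (by rw [← map_mul, D.y2, map_zero])
    (by rw [← map_mul, ← map_mul, ← map_add, D.xy, map_one])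

lemma cen_cochar {l : Type*} [Fintype l] [DecidableEq l] {e P : Matrix l l K} (hP : P * P = P)
    (h : P * e = e * P) : IsCochar (UN.W.Cen e) P := by
  refine ⟨hP, fun t ht => ?_⟩
  refine ⟨⟨t • P + (1 - P), t⁻¹ • P + (1 - P), torus_mul hP ht, ?_⟩, ?_, rfl⟩
  · have := torus_mul hP (inv_ne_zero ht)
    rwa [inv_inv] at this
  · change (t • P + (1 - P)) * e = e * (t • P + (1 - P))
    rw [add_mul, mul_add, smul_mul_assoc, mul_smul_comm, sub_mul, mul_sub, h, one_mul, mul_one]

lemma Dat.cen (D : Dat V x y) : GG V x y ≤ UN.W.Cen (UN.W.e1 K m) := by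
  apply GenG_le (UN.W.Cen_closed _)
  intro Q hQ
  apply cen_cochar (D.idem hQ)
  obtain ⟨A, rfl⟩ := D.ex hQ
  rw [bl_apply, UN.W.e1, Matrix.fromBlocks_multiply, Matrix.fromBlocks_multiply]
  simp

lemma Dat.pres (D : Dat V x y) {U : Submodule K (m ⊕ m → K)} (hU : IsSub (GG V x y) U)
    {P : Matrix m m K} (hP : P ∈ OH V x y) {v : m ⊕ m → K} (hv : v ∈ U) :
    (bl K m P).mulVec v ∈ U := by
  obtain ⟨g, hg, hgt⟩ := (GenG_cochar (D.idem (OH_map hP)) (OH_map hP)).2 2 two_ne_zero
  have h1 := hU g hg v hv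
  have e : (g : Matrix _ _ K) = bl K m P + 1 := by
    rw [hgt, two_smul]; abel
  rw [e, Matrix.add_mulVec, Matrix.one_mulVec] at h1
  have := U.sub_mem h1 hv
  rwa [add_sub_cancel_right] at this

lemma Dat.sub1 (D : Dat V x y) : IsSub (GG V x y) (UN.W.W1 K m) :=
  fun _ hg _ hv => UN.W.cen_W1 (D.cen hg) hv

lemma Dat.sub2 (D : Dat V x y) : IsSub (GG V x y) (UN.W.W2 K m) :=
  fun _ hg _ hv => UN.W.cen_W2 (D.cen hg) hv

lemma sub_inf {l : Type*} [Fintype l] [DecidableEq l]
    {G : Subgroup (Matrix.GeneralLinearGroup l K)} {U U' : Submodule K (l → K)}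
    (h : IsSub G U) (h' : IsSub G U') : IsSub G (U ⊓ U') :=
  fun g hg v hv => ⟨h g hg v hv.1, h' g hg v hv.2⟩

lemma sub_sup {l : Type*} [Fintype l] [DecidableEq l]
    {G : Subgroup (Matrix.GeneralLinearGroup l K)} {U U' : Submodule K (l → K)}
    (h : IsSub G U) (h' : IsSub G U') : IsSub G (U ⊔ U') := by
  intro g hg v hv
  rw [Submodule.mem_sup] at hv ⊢
  obtain ⟨a, ha, b, hb, rfl⟩ := hv
  exact ⟨_, h g hg a ha, _, h' g hg b hb, (Matrix.mulVec_add _ _ _).symm⟩

lemma Dat.irr1 (D : Dat V x y) {U : Submodule K (m ⊕ m → K)} (hU : IsSub (GG V x y) U)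
    (hle : U ≤ UN.W.W1 K m) : U = ⊥ ∨ U = UN.W.W1 K m := by
  rcases D.irr (U.comap (UN.W.i1 K m)) (by
    intro P hP v hv
    rw [Submodule.mem_comap] at hv ⊢
    rw [← UN.W.blk_i1 P P v]
    exact D.pres hU hP hv) with h | h
  · left
    rw [eq_bot_iff]
    intro u hu
    have hu1 := hle hu
    rw [← UN.W.range_i1] at hu1
    obtain ⟨v, rfl⟩ := hu1
    have : v ∈ U.comap (UN.W.i1 K m) := hu
    rw [h, Submodule.mem_bot] at this
    rw [this, map_zero]
    exact Submodule.zero_mem _
  · right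
    apply le_antisymm hle
    intro u hu1
    rw [← UN.W.range_i1] at hu1
    obtain ⟨v, rfl⟩ := hu1
    have : v ∈ U.comap (UN.W.i1 K m) := by rw [h]; trivial
    exact this

lemma Dat.irr2 (D : Dat V x y) {U : Submodule K (m ⊕ m → K)} (hU : IsSub (GG V x y) U)
    (hle : U ≤ UN.W.W2 K m) : U = ⊥ ∨ U = UN.W.W2 K m := by
  rcases D.irr (U.comap (UN.W.i2 K m)) (by
    intro P hP v hv
    rw [Submodule.mem_comap] at hv ⊢
    rw [← UN.W.blk_i2 P P v]
    exact D.pres hU hP hv) with h | h
  · left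
    rw [eq_bot_iff]
    intro u hu
    have hu1 := hle hu
    rw [← UN.W.range_i2] at hu1
    obtain ⟨v, rfl⟩ := hu1
    have : v ∈ U.comap (UN.W.i2 K m) := hu
    rw [h, Submodule.mem_bot] at this
    rw [this, map_zero]
    exact Submodule.zero_mem _
  · right
    apply le_antisymm hle
    intro u hu1
    rw [← UN.W.range_i2] at hu1
    obtain ⟨v, rfl⟩ := hu1
    have : v ∈ U.comap (UN.W.i2 K m) := by rw [h]; trivial
    exact this

theorem Dat.red (D : Dat V x y) : IsReductiveRep (GG V x y) := by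
  have hc := UN.W.compl_W (K := K) (ι := m)
  intro U hU
  rcases D.irr1 (sub_inf hU D.sub1) inf_le_right with h1 | h1
  · rcases D.irr2 (sub_inf (sub_sup hU D.sub1) D.sub2) inf_le_right with h2 | h2
    · refine ⟨⊤, fun _ _ _ _ => trivial, ?_⟩
      have h3 : U ⊔ UN.W.W1 K m = UN.W.W1 K m := by
        calc U ⊔ UN.W.W1 K m = (UN.W.W1 K m ⊔ UN.W.W2 K m) ⊓ (U ⊔ UN.W.W1 K m) := by
              rw [hc.sup_eq_top, top_inf_eq]
          _ = UN.W.W1 K m ⊔ UN.W.W2 K m ⊓ (U ⊔ UN.W.W1 K m) :=
              sup_inf_assoc_of_le _ le_sup_right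
          _ = UN.W.W1 K m := by rw [inf_comm, h2, sup_bot_eq]
      have h4 : U ≤ UN.W.W1 K m := by rw [← h3]; exact le_sup_left
      have h5 : U = ⊥ := by rw [← h1, inf_eq_left.mpr h4]
      rw [h5]
      exact isCompl_bot_top
    · refine ⟨UN.W.W1 K m, D.sub1, disjoint_iff.mpr h1, codisjoint_iff.mpr ?_⟩
      have h3 : UN.W.W2 K m ≤ U ⊔ UN.W.W1 K m := by rw [← h2]; exact inf_le_left
      rw [eq_top_iff, ← hc.sup_eq_top]
      exact sup_le le_sup_right h3
  · have h1' : UN.W.W1 K m ≤ U := by rw [← h1]; exact inf_le_left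
    rcases D.irr2 (sub_inf hU D.sub2) inf_le_right with h2 | h2
    · refine ⟨UN.W.W2 K m, D.sub2, disjoint_iff.mpr h2, codisjoint_iff.mpr ?_⟩
      rw [eq_top_iff, ← hc.sup_eq_top]
      exact sup_le_sup_right h1' _
    · have h2' : UN.W.W2 K m ≤ U := by rw [← h2]; exact inf_le_left
      refine ⟨⊥, ?_, ?_⟩
      · intro g _ v hv
        rw [Submodule.mem_bot] at hv ⊢
        rw [hv, Matrix.mulVec_zero]
      · have h5 : U = ⊤ := by
          rw [eq_top_iff, ← hc.sup_eq_top]
          exact sup_le h1' h2'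
        rw [h5]
        exact isCompl_top_bot

lemma Dat.ex_pr (D : Dat V x y) {W : Submodule K (m ⊕ m → K)} (hW : IsIrrSub (GG V x y) W) :
    ∃ pr : (m ⊕ m → K) →ₗ[K] (m → K), (∀ A v, pr ((bl K m A).mulVec v) = A.mulVec (pr v)) ∧
      (∀ v ∈ W, pr v = 0 → v = 0) ∧ W.map pr = ⊤ := by
  have key : ∀ pr : (m ⊕ m → K) →ₗ[K] (m → K),
      (∀ A v, pr ((bl K m A).mulVec v) = A.mulVec (pr v)) → (∀ v ∈ W, pr v = 0 → v = 0) →
      W.map pr = ⊤ := by
    intro pr h1 h2
    rcases D.irr (W.map pr) (by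
      rintro P hP _ ⟨v, hv, rfl⟩
      exact ⟨_, D.pres hW.sub hP hv, h1 P v⟩) with h | h
    · exfalso
      apply hW.ne
      rw [eq_bot_iff]
      intro v hv
      have : pr v ∈ W.map pr := ⟨v, hv, rfl⟩
      rw [h, Submodule.mem_bot] at this
      rw [Submodule.mem_bot]
      exact h2 v hv this
    · exact h
  rcases hW.irr _ inf_le_left (sub_inf hW.sub D.sub2) with h | h
  · have h2 : ∀ v ∈ W, p1 K m v = 0 → v = 0 := by
      intro v hv h0
      have : v ∈ W ⊓ UN.W.W2 K m := ⟨hv, fun i => congrFun h0 i⟩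
      rwa [h, Submodule.mem_bot] at this
    exact ⟨p1 K m, bl_p1, h2, key _ bl_p1 h2⟩
  · have h2 : ∀ v ∈ W, p2 K m v = 0 → v = 0 := by
      intro v hv h0
      have h3 : v ∈ UN.W.W2 K m := by
        rw [← h] at hv
        exact hv.2
      ext (i | i)
      · exact h3 i
      · exact congrFun h0 i
    exact ⟨p2 K m, bl_p2, h2, key _ bl_p2 h2⟩

lemma fr_of_inj {M M' : Type*} [AddCommGroup M] [Module K M] [AddCommGroup M'] [Module K M']
    {W : Submodule K M} (f : M →ₗ[K] M') (h : ∀ v ∈ W, f v = 0 → v = 0) :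
    finrank K (W.map f) = finrank K W := by
  have h1 : Function.Injective (f.domRestrict W) := by
    rw [injective_iff_map_eq_zero]
    rintro ⟨v, hv⟩ h0
    exact Subtype.ext (h v hv h0)
  rw [← LinearMap.finrank_range_of_inj h1, LinearMap.range_domRestrict]

lemma Dat.rk (D : Dat V x y) {W : Submodule K (m ⊕ m → K)} (hW : IsIrrSub (GG V x y) W)
    {A : Matrix m m K} (hA : ∀ v ∈ W, (bl K m A).mulVec v ∈ W) :
    finrank K (W.map (bl K m A).mulVecLin) = A.rank := by
  obtain ⟨pr, h1, h2, h3⟩ := D.ex_pr hW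
  have h4 : finrank K ((W.map (bl K m A).mulVecLin).map pr) =
      finrank K (W.map (bl K m A).mulVecLin) := by
    apply fr_of_inj
    rintro _ ⟨v, hv, rfl⟩ h0
    exact h2 _ (hA v hv) h0
  rw [← h4]
  have h5 : (W.map (bl K m A).mulVecLin).map pr = LinearMap.range A.mulVecLin := by
    rw [LinearMap.range_eq_map, ← h3]
    ext u
    constructor
    · rintro ⟨_, ⟨v, hv, rfl⟩, rfl⟩
      exact ⟨pr v, ⟨v, hv, rfl⟩, (h1 A v).symm⟩
    · rintro ⟨_, ⟨v, hv, rfl⟩, rfl⟩
      exact ⟨_, ⟨v, hv, rfl⟩, h1 A v⟩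
  rw [h5]
  rfl

lemma Dat.fr (D : Dat V x y) {W : Submodule K (m ⊕ m → K)} (hW : IsIrrSub (GG V x y) W) :
    finrank K W = Fintype.card m := by
  obtain ⟨pr, h1, h2, h3⟩ := D.ex_pr hW
  rw [← fr_of_inj pr h2, h3, finrank_top, Module.finrank_fintype_fun_eq_card]

lemma Dat.schur [IsAlgClosed K] [Nonempty m] (D : Dat V x y) {A : Matrix m m K}
    (hA : ∀ P ∈ OH V x y, A * P = P * A) : ∃ c : K, A = c • 1 := by
  obtain ⟨c, hc⟩ := Module.End.exists_eigenvalue (Matrix.toLin' A)
  refine ⟨c, ?_⟩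
  rcases D.irr (Module.End.eigenspace (Matrix.toLin' A) c) (by
    intro P hP v hv
    rw [Module.End.mem_eigenspace_iff, Matrix.toLin'_apply] at hv ⊢
    rw [Matrix.mulVec_mulVec, hA P hP, ← Matrix.mulVec_mulVec, hv, Matrix.mulVec_smul]) with h | h
  · exact absurd h hc
  · apply Matrix.toLin'.injective
    apply LinearMap.ext
    intro v
    have : v ∈ Module.End.eigenspace (Matrix.toLin' A) c := by rw [h]; trivial
    rw [Module.End.mem_eigenspace_iff] at this
    rw [this, map_smul, Matrix.toLin'_one, LinearMap.smul_apply, LinearMap.id_apply]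

lemma Dat.comm [IsAlgClosed K] [Nonempty m] (D : Dat V x y) {T : Matrix (m ⊕ m) (m ⊕ m) K}
    (hT : ∀ h ∈ GG V x y, T * (h : Matrix _ _ K) = (h : Matrix _ _ K) * T) (A : Matrix m m K) :
    T * bl K m A = bl K m A * T := by
  have h1 : ∀ P ∈ OH V x y, T * bl K m P = bl K m P * T := by
    intro P hP
    obtain ⟨g, hg, hgt⟩ := (GenG_cochar (D.idem (OH_map hP)) (OH_map hP)).2 2 two_ne_zero
    have h1 := hT g hg
    have e : (g : Matrix _ _ K) = bl K m P + 1 := by
      rw [hgt, two_smul]; abel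
    rw [e, mul_add, add_mul, mul_one, one_mul] at h1
    exact add_right_cancel h1
  rw [← Matrix.fromBlocks_toBlocks T] at h1 ⊢
  simp only [bl_apply, Matrix.fromBlocks_multiply, Matrix.mul_zero, Matrix.zero_mul, add_zero,
    zero_add, Matrix.fromBlocks_inj] at h1 ⊢
  obtain ⟨a, ha⟩ := D.schur fun P hP => (h1 P hP).1
  obtain ⟨b, hb⟩ := D.schur fun P hP => (h1 P hP).2.1
  obtain ⟨c, hc⟩ := D.schur fun P hP => (h1 P hP).2.2.1
  obtain ⟨d, hd⟩ := D.schur fun P hP => (h1 P hP).2.2.2
  rw [ha, hb, hc, hd]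
  simp

lemma det_unip {M : Type*} [AddCommGroup M] [Module K M] [FiniteDimensional K M]
    {f : Module.End K M} (h : (f - 1) * (f - 1) = 0) : LinearMap.det f = 1 := by
  have h1 : IsNilpotent (1 - f) := ⟨2, by
    rw [pow_two, ← h]; noncomm_ring⟩
  have h2 := LinearMap.eval_charpoly (1 - f) (1 : K)
  rw [IsNilpotent.charpoly_eq_X_pow_finrank h1] at h2
  rw [Polynomial.eval_pow, Polynomial.eval_X, one_pow, map_one, sub_sub_cancel] at h2
  exact h2.symm

lemma Dat.not_contains [IsAlgClosed K] [Nonempty m] (D : Dat V x y) {J N : Matrix m m K}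
    (h1 : N * N = 0) (h2 : x * y * N = N) (h3 : N * (x * y) = 0)
    (h4 : N.transpose * J + J * N = 0) (h5 : N ∉ V * V) :
    ¬ ContainsDer (J2 J) (GG V x y) := by
  intro hC
  have hNN : bl K m N * bl K m N = 0 := by rw [← map_mul, h1, map_zero]
  let t : Matrix.GeneralLinearGroup (m ⊕ m) K :=
    ⟨1 + bl K m N, 1 - bl K m N, one_add_mul hNN, one_sub_mul hNN⟩
  have h4' : N.transpose * J.transpose + J.transpose * N = 0 := by
    have := congrArg Matrix.transpose h4
    rw [Matrix.transpose_add, Matrix.transpose_mul, Matrix.transpose_mul,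
      Matrix.transpose_transpose, Matrix.transpose_zero, add_comm] at this
    exact this
  have hsp : (bl K m N).transpose * J2 J + J2 J * bl K m N = 0 := by
    rw [bl_apply, J2, Matrix.fromBlocks_transpose, Matrix.fromBlocks_multiply,
      Matrix.fromBlocks_multiply, Matrix.fromBlocks_add, ← Matrix.fromBlocks_zero]
    congr 1
    · simp
    · simpa using h4
    · have e : N.transpose * -J.transpose + -J.transpose * N = 0 := by
        rw [mul_neg, neg_mul, ← neg_add, h4', neg_zero]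
      simpa using e
    · simp
  have hmem : t ∈ GG V x y := by
    apply hC t (isom_one_add hNN hsp)
    · intro T hT
      change T * (1 + bl K m N) = (1 + bl K m N) * T
      rw [mul_add, add_mul, mul_one, one_mul, D.comm hT]
    · intro W _ h
      apply det_unip
      apply LinearMap.ext
      rintro ⟨v, hv⟩
      apply Subtype.ext
      change (1 + bl K m N).mulVec ((1 + bl K m N).mulVec v - v) -
        ((1 + bl K m N).mulVec v - v) = 0
      have e1 : (1 + bl K m N).mulVec v - v = (bl K m N).mulVec v := by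
        rw [Matrix.add_mulVec, Matrix.one_mulVec, add_sub_cancel_left]
      rw [e1, Matrix.add_mulVec, Matrix.one_mulVec, Matrix.mulVec_mulVec, hNN,
        Matrix.zero_mulVec, add_zero, sub_self]
  have hG : GG V x y ≤ Nrm (V2 V * V2 V) :=
    GenG_le (Nrm_closed _) fun Q hQ => hyp_nrm (cliff2 D.cl) (D.hyp hQ)
  have h6 := hG hmem (bl K m x * bl K m y)
    (Submodule.mul_mem_mul (mem_V2 D.hx) (mem_V2 D.hy))
  change (1 + bl K m N) * (bl K m x * bl K m y) * (1 - bl K m N) ∈ V2 V * V2 V at h6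
  have e : (1 + bl K m N) * (bl K m x * bl K m y) * (1 - bl K m N) =
      bl K m (x * y - N) := by
    rw [map_sub, ← map_mul]
    have e1 : bl K m (x * y) * bl K m N = bl K m N := by rw [← map_mul, h2]
    have e2 : bl K m N * bl K m (x * y) = 0 := by rw [← map_mul, h3, map_zero]
    rw [add_mul, e2, one_mul, add_zero, mul_sub, mul_one, e1]
  rw [e, V2, ← Submodule.map_mul] at h6
  obtain ⟨X, hX, hX'⟩ := h6
  have h7 : X = x * y - N := bl_inj hX'
  apply h5
  have h8 : N = x * y - X := by rw [h7]; abel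
  rw [h8]
  exact Submodule.sub_mem _ (Submodule.mul_mem_mul D.hx D.hy) hX

theorem Dat.hasEx [IsAlgClosed K] {m : Type} [Fintype m] [DecidableEq m] [Nonempty m]
    {V : Submodule K (Matrix m m K)} {x y : Matrix m m K} (D : Dat V x y) {J N w : Matrix m m K}
    (hJ : J.det ≠ 0) {e : K} (he : e * e = 1)
    (hv : ∀ v ∈ V, v.transpose * J = e • (J * v))
    (h1 : N * N = 0) (h2 : x * y * N = N) (h3 : N * (x * y) = 0)
    (h4 : N.transpose * J + J * N = 0) (h5 : N ∉ V * V) {d s r : ℕ} (hd : Fintype.card m = d)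
    (hs : (x * y).rank = s) (hds : 2 * s = d) (hw : w ∈ V) (hwx : w * x + x * w = 0)
    (hwy : w * y + y * w = 0) (hr : (x * w).rank = r) : HasEx1 K d s r := by
  have hconj : IsConj ⊥ (GG V x y) (bl K m x * bl K m y) (bl K m x * bl K m y) :=
    ⟨1, Subgroup.one_mem _, 1, Subgroup.one_mem _, fun v => by
      rw [Equiv.Perm.one_apply, Equiv.Perm.one_apply, Units.val_one, Matrix.one_mulVec,
        Matrix.one_mulVec]⟩
  refine ⟨m ⊕ m, inferInstance, inferInstance, J2 J, GG V x y, bl K m x * bl K m y,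
    ?_, D.red, ?_, D.not_contains h1 h2 h3 h4 h5⟩
  · refine strong_of_orbit_self (J2_t J) (J2_det hJ) _ _ (fun P hP => ?_) D.EN_le
    refine hyp_lag he ?_ (D.hyp hP)
    rintro _ ⟨v, hv', rfl⟩
    exact J2_vec he (hv v hv')
  · intro W hW
    have hP : ∀ v ∈ W, (bl K m (x * y)).mulVec v ∈ W := fun v hv =>
      D.pres hW.sub (OrbN_self _ _) hv
    refine ⟨by rw [D.fr hW, hd], ⟨_, hconj, ?_⟩, ?_⟩
    · rw [rankOn, ← map_mul, D.rk hW hP, hs, D.fr hW, hd]
      omega
    · intro γ hγ E
      have hz : x * w * (x * w) = 0 := eich_sq D.x2 hwx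
      have hz2 : bl K m x * bl K m w * (bl K m x * bl K m w) = 0 := by
        rw [← map_mul, ← map_mul, hz, map_zero]
      obtain ⟨u, hu⟩ := unip_ex hz2
      have hu' : (u : Matrix _ _ K) - 1 = bl K m (x * w) := by
        rw [hu, add_sub_cancel_left, map_mul]
      have huG : u ∈ GG V x y := D.EN_le (Subgroup.subset_closure ⟨bl K m w, mem_V2 hw,
        by rw [← map_mul, ← map_mul, ← map_add, hwx, map_zero],
        by rw [← map_mul, ← map_mul, ← map_add, hwy, map_zero], Or.inl hu⟩)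
      rw [Subgroup.mem_bot] at hγ
      subst hγ
      refine ⟨1, Subgroup.one_mem _, fun v _ => rfl, u, huG, _, hconj, ?_, ?_, fun v => rfl, ?_⟩
      · rw [hu', ← map_mul, ← map_mul, xyxw D.x2 D.xy]
      · have e1 : x * w * (x * y) = 0 := by
          have ewx : w * x = -(x * w) := eq_neg_of_add_eq_zero_left hwx
          rw [mul_assoc, ← mul_assoc w, ewx, neg_mul, mul_neg, mul_assoc, ← mul_assoc, D.x2,
            zero_mul, neg_zero]
        rw [hu', ← map_mul, ← map_mul, e1, map_zero]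
      · intro θ hθ U hU
        rw [Subgroup.mem_bot] at hθ
        subst hθ
        have : W = U := Submodule.ext hU
        subst this
        rw [hu', D.rk hW, hr]
        intro v hv
        rw [← hu', Matrix.sub_mulVec, Matrix.one_mulVec]
        exact W.sub_mem (hW.sub u huG v hv) hv

end bl

/-! ### The spin representations -/

section spin
variable {k : ℕ}

lemma dat [CharZero K] : Dat (VS K (k + 2)) (x0 K k) (y0 K k) :=
  ⟨VS_cliff, jw_mem 0 mem_cm, jw_mem 0 mem_am, x0_sq, y0_sq, x0_y0, fun U hU => spin_irr U hU⟩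

lemma JS_det' {n : ℕ} : (JS K n).det ≠ 0 := by
  have h1 : JS K n * JS K n = (∏ k : Fin n, (-1 : K) ^ (k.val + (n + 1) + 1)) • 1 := by
    rw [JS, Tn_mul, ← Tn_one]
    ext x y
    simp only [Tn, Jf_sq, Matrix.smul_apply, smul_eq_mul, Finset.prod_mul_distrib]
  intro h0
  have h2 := congrArg Matrix.det h1
  rw [Matrix.det_mul, h0, zero_mul, Matrix.det_smul, Matrix.det_one, mul_one] at h2
  refine pow_ne_zero _ ?_ h2.symm
  rw [Finset.prod_pow_eq_pow_sum]
  exact pow_ne_zero _ (neg_ne_zero.mpr one_ne_zero)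

lemma rank_P0 : (x0 K k * y0 K k).rank = 2 ^ (k + 1) := by
  rw [← rank_xg (K := K)]
  apply le_antisymm
  · have e : x0 K k * y0 K k = x0 K k * g0 K (k + 2) * (g0 K (k + 2) * y0 K k) := by
      rw [mul_assoc, ← mul_assoc (g0 K (k + 2)), g0_sq, one_mul]
    rw [e]
    exact Matrix.rank_mul_le_left _ _
  · have e : x0 K k * g0 K (k + 2) = x0 K k * y0 K k * (x0 K k * g0 K (k + 2)) := by
      rw [← mul_assoc, xyx x0_sq x0_y0]
    rw [e]
    exact Matrix.rank_mul_le_left _ _

lemma Tn_zero {n : ℕ} {A : Fin n → Matrix (Fin 2) (Fin 2) K} {p q : Sx n} (s : Fin n)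
    (h : A s (p s) (q s) = 0) : Tn A p q = 0 := Finset.prod_eq_zero (Finset.mem_univ s) h

lemma AC_diag {B : Matrix (Fin 2) (Fin 2) K} (hB : B ∈ AC K) (a : Fin 2) :
    B a a = 0 ∧ (B * Zm K) a a = 0 ∧ (Zm K * B) a a = 0 := by
  rcases hB with rfl | rfl <;> fin_cases a <;>
    simp [am, cm, Zm, Matrix.mul_apply, Fin.sum_univ_two]

lemma AC_off {B C : Matrix (Fin 2) (Fin 2) K} (hB : B ∈ AC K) (hC : C ∈ AC K) :
    (B * C) 1 0 = 0 := by
  rcases hB with rfl | rfl <;> rcases hC with rfl | rfl <;>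
    simp [am, cm, Matrix.mul_apply, Fin.sum_univ_two]

/-- First row. -/
def pa (k : ℕ) : Sx (k + 2) := fun i => if i = 0 then 1 else 0
/-- First column. -/
def qa (k : ℕ) : Sx (k + 2) := fun _ => 0
/-- Second row. -/
def pb (k : ℕ) : Sx (k + 2) := fun i => if i = 0 then 1 else if i = 1 then 1 else 0
/-- Second column. -/
def qb (k : ℕ) : Sx (k + 2) := fun i => if i = 1 then 1 else 0

lemma p_eq {i : Fin (k + 2)} (h : i ≠ 0) : pa k i = qa k i ∧ pb k i = qb k i := by
  simp [pa, qa, pb, qb, h]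

lemma p_zero : pa k 0 = 1 ∧ qa k 0 = 0 ∧ pb k 0 = 1 ∧ qb k 0 = 0 := by
  have : (0 : Fin (k + 2)) ≠ 1 := one_ne.symm
  simp [pa, qa, pb, qb, this]

lemma phi_jg (i : Fin (k + 2)) {B : Matrix (Fin 2) (Fin 2) K} (hB : B ∈ AC K) :
    (jw i B * g0 K (k + 2)) (pa k) (qa k) + (jw i B * g0 K (k + 2)) (pb k) (qb k) = 0 := by
  rw [jw, g0, Tn_mul]
  obtain ⟨z1, z2, z3, z4⟩ := p_zero (k := k)
  by_cases hi : i = 0
  · subst hi
    have e : ∀ l : Fin (k + 2), ((if l < 0 then Zm K else if l = 0 then B else 1) * Zm K)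
        (pb k l) (qb k l) = ((if l < 0 then Zm K else if l = 0 then B else 1) * Zm K)
        (pa k l) (qa k l) * (if l = 1 then -1 else 1) := by
      intro l
      by_cases h0 : l = 0
      · subst h0
        rw [z1, z2, z3, z4, if_neg one_ne.symm, mul_one]
      · by_cases h1 : l = 1
        · subst h1
          simp [pa, pb, qa, qb, one_ne, Zm]
        · simp [pa, pb, qa, qb, h0, h1]
    have e2 : Tn (fun l : Fin (k + 2) => (if l < 0 then Zm K else if l = 0 then B else 1) * Zm K)
        (pb k) (qb k) = -Tn (fun l : Fin (k + 2) =>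
          (if l < 0 then Zm K else if l = 0 then B else 1) * Zm K) (pa k) (qa k) := by
      unfold Tn
      simp only [e, Finset.prod_mul_distrib]
      rw [Finset.prod_ite_eq' Finset.univ (1 : Fin (k + 2)) (fun _ => (-1 : K)),
        if_pos (Finset.mem_univ _)]
      ring
    rw [e2, add_neg_cancel]
  · rw [Tn_zero i, Tn_zero i, add_zero]
    · rw [(p_eq hi).2]
      simpa using (AC_diag hB _).2.1
    · rw [(p_eq hi).1]
      simpa using (AC_diag hB _).2.1

lemma phi_zero {X : Matrix (Sx (k + 2)) (Sx (k + 2)) K}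
    (hX : X ∈ VS K (k + 2) * VS K (k + 2)) : X (pa k) (qa k) + X (pb k) (qb k) = 0 := by
  obtain ⟨z1, z2, z3, z4⟩ := p_zero (k := k)
  rw [VS, Submodule.span_mul_span] at hX
  induction hX using Submodule.span_induction with
  | mem X hX =>
    obtain ⟨v, hv, w, hw, rfl⟩ := Set.mem_mul.mp hX
    rcases hv with ⟨i, B, hB, rfl⟩ | rfl <;> rcases hw with ⟨j, C, hC, rfl⟩ | rfl
    · by_cases hij : i = j
      · subst hij
        rw [jw_mul_same, loc]
        by_cases hi : i = 0
        · subst hi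
          rw [Tn_zero 0, Tn_zero 0, add_zero]
          · rw [z3, z4]; simpa using AC_off hB hC
          · rw [z1, z2]; simpa using AC_off hB hC
        · rw [Tn_zero 0, Tn_zero 0, add_zero]
          · rw [z3, z4]; simp [Ne.symm hi]
          · rw [z1, z2]; simp [Ne.symm hi]
      · rw [jw, jw, Tn_mul]
        by_cases hi : i = 0
        · have hj : j ≠ 0 := fun h => hij (hi.trans h.symm)
          have key : ∀ a, ((if j < i then Zm K else if j = i then B else 1) *
              (if j < j then Zm K else if j = j then C else 1)) a a = 0 := by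
            intro a
            rw [if_neg (lt_irrefl j), if_pos rfl]
            by_cases h : j < i
            · rw [if_pos h]; exact (AC_diag hC a).2.2
            · rw [if_neg h, if_neg (Ne.symm hij), one_mul]; exact (AC_diag hC a).1
          rw [Tn_zero j, Tn_zero j, add_zero]
          · rw [(p_eq hj).2]; exact key _
          · rw [(p_eq hj).1]; exact key _
        · have key : ∀ a, ((if i < i then Zm K else if i = i then B else 1) *
              (if i < j then Zm K else if i = j then C else 1)) a a = 0 := by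
            intro a
            rw [if_neg (lt_irrefl i), if_pos rfl]
            by_cases h : i < j
            · rw [if_pos h]; exact (AC_diag hB a).2.1
            · rw [if_neg h, if_neg hij, mul_one]; exact (AC_diag hB a).1
          rw [Tn_zero i, Tn_zero i, add_zero]
          · rw [(p_eq hi).2]; exact key _
          · rw [(p_eq hi).1]; exact key _
    · exact phi_jg i hB
    · have h := phi_jg j hC
      rw [g0_anti j hC, Matrix.neg_apply, Matrix.neg_apply, ← neg_add, neg_eq_zero] at h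
      exact h
    · rw [g0_sq, Matrix.one_apply_ne, Matrix.one_apply_ne, add_zero]
      · intro h
        have := congrFun h 0
        rw [z3, z4] at this
        exact absurd this (by decide)
      · intro h
        have := congrFun h 0
        rw [z1, z2] at this
        exact absurd this (by decide)
  | zero => simp
  | add a b _ _ ha hb =>
    rw [Matrix.add_apply, Matrix.add_apply, add_add_add_comm, ha, hb, add_zero]
  | smul r a _ ha =>
    rw [Matrix.smul_apply, Matrix.smul_apply, ← smul_add, ha, smul_zero]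

lemma x0_notMem [CharZero K] : x0 K k ∉ VS K (k + 2) * VS K (k + 2) := by
  intro h
  have h1 := phi_zero h
  obtain ⟨z1, z2, z3, z4⟩ := p_zero (k := k)
  have e : ∀ p q : Sx (k + 2), p 0 = 1 → q 0 = 0 → (∀ i, i ≠ 0 → p i = q i) →
      x0 K k p q = 1 := by
    intro p q hp hq hpq
    change (∏ i : Fin (k + 2), (if i < 0 then Zm K else if i = 0 then cm K else 1)
      (p i) (q i)) = 1
    refine Finset.prod_eq_one fun i _ => ?_
    by_cases hi : i = 0
    · subst hi
      rw [hp, hq]
      simp [cm]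
    · rw [hpq i hi]
      simp [hi]
  rw [e _ _ z1 z2 (fun i hi => (p_eq hi).1), e _ _ z3 z4 (fun i hi => (p_eq hi).2)] at h1
  norm_num at h1

/-- The third creation vector. -/
abbrev z2 (K : Type*) [Field K] {k : ℕ} (hk : 1 ≤ k) : Matrix (Sx (k + 2)) (Sx (k + 2)) K :=
  jw ⟨2, by omega⟩ (cm K)

lemma two_ne (hk : 1 ≤ k) : (⟨2, by omega⟩ : Fin (k + 2)) ≠ 0 ∧
    (⟨2, by omega⟩ : Fin (k + 2)) ≠ 1 := by
  constructor
  · intro h
    have := congrArg Fin.val h
    simp at this
  · intro h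
    have := congrArg Fin.val h
    simp at this

/-- Far row. -/
def pc (k : ℕ) : Sx (k + 2) := fun i => if i.val < 3 then 1 else 0

lemma triple_notMem (hk : 1 ≤ k) :
    x0 K k * z1 K k * z2 K hk ∉ VS K (k + 2) * VS K (k + 2) := by
  intro h
  have hd : 2 < hammingDist (pc k) (qa k) := by
    rw [hammingDist, Finset.two_lt_card]
    refine ⟨⟨0, by omega⟩, ?_, ⟨1, by omega⟩, ?_, ⟨2, by omega⟩, ?_, ?_, ?_, ?_⟩
    all_goals simp [pc, qa]
  have h1 := VV_far h hd
  rw [x0_z1, z2, jw, Tn_mul] at h1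
  have h2 : Tn (fun i : Fin (k + 2) => Bf k (cm K) i * (if i < ⟨2, by omega⟩ then Zm K else
      if i = ⟨2, by omega⟩ then cm K else 1)) (pc k) (qa k) = 1 := by
    refine Finset.prod_eq_one fun i _ => ?_
    have hq : qa k i = 0 := rfl
    by_cases h3 : i.val < 3
    · have hp : pc k i = 1 := if_pos h3
      by_cases h2 : i = ⟨2, by omega⟩
      · have hB : Bf k (cm K) i = 1 := if_neg (by
          rintro (h | h)
          · exact (two_ne hk).1 (h2.symm.trans h)
          · exact (two_ne hk).2 (h2.symm.trans h))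
        have hL : ¬ i < ⟨2, by omega⟩ := by rw [h2]; exact lt_irrefl _
        change (Bf k (cm K) i * (if i < ⟨2, by omega⟩ then Zm K else
          if i = ⟨2, by omega⟩ then cm K else 1)) (pc k i) (qa k i) = 1
        rw [hp, hq, hB, if_neg hL, if_pos h2, one_mul]
        simp [cm]
      · have hv : i.val ≠ 2 := fun h => h2 (Fin.ext h)
        have hL : i < ⟨2, by omega⟩ := by
          rw [Fin.lt_def]
          change i.val < 2
          omega
        have hB : Bf k (cm K) i = cm K := if_pos (by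
          rcases Nat.lt_or_ge i.val 1 with h | h
          · left
            apply Fin.ext
            change i.val = 0
            omega
          · right
            apply Fin.ext
            rw [Fin.val_one]
            omega)
        change (Bf k (cm K) i * (if i < ⟨2, by omega⟩ then Zm K else
          if i = ⟨2, by omega⟩ then cm K else 1)) (pc k i) (qa k i) = 1
        rw [hp, hq, hB, if_pos hL]
        simp [cm, Zm, Matrix.mul_apply, Fin.sum_univ_two]
    · have hp : pc k i = 0 := if_neg h3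
      have hL : ¬ i < ⟨2, by omega⟩ := by
        rw [Fin.lt_def]
        change ¬ i.val < 2
        omega
      have h2 : i ≠ ⟨2, by omega⟩ := by
        intro h
        apply h3
        rw [h]
        exact Nat.lt_succ_self 2
      have hB : Bf k (cm K) i = 1 := if_neg (by
        rintro (h | h)
        · rw [h] at h3
          simp at h3
        · rw [h] at h3
          simp at h3)
      change (Bf k (cm K) i * (if i < ⟨2, by omega⟩ then Zm K else
        if i = ⟨2, by omega⟩ then cm K else 1)) (pc k i) (qa k i) = 1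
      rw [hp, hq, hB, if_neg hL, if_neg h2, one_mul]
      simp
  rw [h2] at h1
  exact one_ne_zero h1

/-- The nilpotent element outside the Lie algebra. -/
theorem exists_N [CharZero K] (hk : 1 ≤ k) : ∃ N : Matrix (Sx (k + 2)) (Sx (k + 2)) K,
    N * N = 0 ∧ x0 K k * y0 K k * N = N ∧ N * (x0 K k * y0 K k) = 0 ∧
    N.transpose * JS K (k + 2) + JS K (k + 2) * N = 0 ∧
    N ∉ VS K (k + 2) * VS K (k + 2) := by
  rcases Nat.even_or_odd k with h | h
  · have he : (-1 : K) ^ (k + 2) = 1 := (h.add even_two).neg_one_pow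
    have hJ : ∀ v ∈ VS K (k + 2), v.transpose * JS K (k + 2) = JS K (k + 2) * v := by
      intro v hv
      rw [JS_VS v hv, he, one_smul]
    have a0 := hJ _ (jw_mem (0 : Fin (k + 2)) mem_cm)
    have a1 := hJ _ (jw_mem (1 : Fin (k + 2)) mem_cm)
    have a2 := hJ _ (jw_mem (⟨2, by omega⟩ : Fin (k + 2)) mem_cm)
    have c10 : z1 K k * x0 K k = -(x0 K k * z1 K k) := jw_anti' one_ne mem_cm mem_cm
    have c20 : z2 K hk * x0 K k = -(x0 K k * z2 K hk) := jw_anti' (two_ne hk).1 mem_cm mem_cm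
    have c21 : z2 K hk * z1 K k = -(z1 K k * z2 K hk) := jw_anti' (two_ne hk).2 mem_cm mem_cm
    have cM : z1 K k * z2 K hk * x0 K k = x0 K k * (z1 K k * z2 K hk) := by
      rw [mul_assoc, c20, mul_neg, ← mul_assoc, c10, neg_mul, neg_neg, mul_assoc]
    refine ⟨x0 K k * z1 K k * z2 K hk, ?_, ?_, ?_, ?_, triple_notMem hk⟩
    · calc x0 K k * z1 K k * z2 K hk * (x0 K k * z1 K k * z2 K hk)
          = x0 K k * (z1 K k * z2 K hk * x0 K k) * (z1 K k * z2 K hk) := by
            simp only [mul_assoc]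
        _ = x0 K k * x0 K k * (z1 K k * z2 K hk) * (z1 K k * z2 K hk) := by
            rw [cM]; simp only [mul_assoc]
        _ = 0 := by rw [x0_sq]; simp
    · calc x0 K k * y0 K k * (x0 K k * z1 K k * z2 K hk)
          = x0 K k * y0 K k * x0 K k * z1 K k * z2 K hk := by simp only [mul_assoc]
        _ = _ := by rw [xyx x0_sq x0_y0]
    · calc x0 K k * z1 K k * z2 K hk * (x0 K k * y0 K k)
          = x0 K k * (z1 K k * z2 K hk * x0 K k) * y0 K k := by simp only [mul_assoc]
        _ = x0 K k * x0 K k * (z1 K k * z2 K hk) * y0 K k := by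
            rw [cM]; simp only [mul_assoc]
        _ = 0 := by rw [x0_sq]; simp
    · rw [Matrix.transpose_mul, Matrix.transpose_mul]
      have e1 : (z2 K hk).transpose * ((z1 K k).transpose * (x0 K k).transpose) *
          JS K (k + 2) = JS K (k + 2) * (z2 K hk * z1 K k * x0 K k) := by
        calc (z2 K hk).transpose * ((z1 K k).transpose * (x0 K k).transpose) * JS K (k + 2)
            = (z2 K hk).transpose * ((z1 K k).transpose * ((x0 K k).transpose * JS K (k + 2))) := by
              simp only [mul_assoc]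
          _ = (z2 K hk).transpose * (((z1 K k).transpose * JS K (k + 2)) * x0 K k) := by
              rw [a0]; simp only [mul_assoc]
          _ = ((z2 K hk).transpose * JS K (k + 2)) * (z1 K k * x0 K k) := by
              rw [a1]; simp only [mul_assoc]
          _ = _ := by rw [a2]; simp only [mul_assoc]
      have e2 : z2 K hk * z1 K k * x0 K k = -(x0 K k * z1 K k * z2 K hk) := by
        rw [c21, neg_mul, cM, mul_assoc]
      rw [e1, e2, mul_neg, neg_add_cancel]
  · have he : (-1 : K) ^ (k + 2) = -1 := (h.add_even even_two).neg_one_pow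
    refine ⟨x0 K k, x0_sq, xyx x0_sq x0_y0, ?_, ?_, x0_notMem⟩
    · rw [← mul_assoc, x0_sq, zero_mul]
    · rw [JS_VS _ (jw_mem 0 mem_cm), he, neg_one_smul, neg_add_cancel]

end spin

end AV.SHS

namespace AV

open AV.SHS

/-- SHS: spin representations. -/
theorem ex_spin (K : Type*) [Field K] [IsAlgClosed K] [CharZero K] {n : ℕ} (hn : 4 ≤ n) :
    HasEx1 K (2 ^ (n - 1)) (2 ^ (n - 2)) (2 ^ (n - 3)) ∧
      HasEx1 K (2 ^ (n - 1)) (2 ^ (n - 2)) (2 ^ (n - 2)) := by
  obtain ⟨k, rfl⟩ : ∃ k, n = k + 3 := ⟨n - 3, by omega⟩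
  obtain ⟨N, h1, h2, h3, h4, h5⟩ := exists_N (K := K) (k := k) (by omega)
  have hee : (-1 : K) ^ (k + 2) * (-1 : K) ^ (k + 2) = 1 := by
    rw [← mul_pow]; simp
  have e1 : k + 3 - 1 = k + 2 := by omega
  have e2 : k + 3 - 2 = k + 1 := by omega
  have e3 : k + 3 - 3 = k := by omega
  rw [e1, e2, e3]
  have hd : Fintype.card (Sx (k + 2)) = 2 ^ (k + 2) := by simp
  have hds : 2 * 2 ^ (k + 1) = 2 ^ (k + 2) := by rw [pow_succ 2 (k + 1), mul_comm]
  constructor
  · exact (dat (K := K) (k := k)).hasEx JS_det' hee JS_VS h1 h2 h3 h4 h5 hd rank_P0 hds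
      (jw_mem 1 mem_cm) (jw_orth one_ne mem_cm mem_cm) (jw_orth one_ne mem_cm mem_am) rank_xz
  · exact (dat (K := K) (k := k)).hasEx JS_det' hee JS_VS h1 h2 h3 h4 h5 hd rank_P0 hds
      g0_mem (g0_orth 0 mem_cm) (g0_orth 0 mem_am) rank_xg

end AV
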